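import Pool.Agent.W739.CY.Stm

/-!
Project CY (S19209), part ROT: recursion of the chain function from the right and rotation
invariance of the cyclic function.
-/

set_option autoImplicit false

namespace Pool.Agent.W400.CY

open Pool.Agent.W739.CY

section
variable {C : Type} [DecidableEq C]

theorem spl_congr (w : List C) : ∀ f g : List C → C → List C → ℝ,
    (∀ v c u, v ++ c :: u = w → f v c u = g v c u) → spl f w = spl g w := by
  induction w with
  | nil => intro f g _; rfl
  | cons x w ih =>
    intro f g h
    unfold spl
    rw [h [] x w rfl, ih _ (fun v c u => g (x :: v) c u)]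
    intro v c u hw
    exact h (x :: v) c u (by rw [List.cons_append, hw])

theorem spl_add (w : List C) : ∀ f g : List C → C → List C → ℝ,
    spl (fun v c u => f v c u + g v c u) w = spl f w + spl g w := by
  induction w with
  | nil => intro f g; simp [spl]
  | cons x w ih =>
    intro f g
    unfold spl
    rw [ih (fun v c u => f (x :: v) c u) (fun v c u => g (x :: v) c u)]
    ring

theorem spl_mul (w : List C) : ∀ (t : ℝ) (f : List C → C → List C → ℝ),
    spl (fun v c u => t * f v c u) w = t * spl f w := by
  induction w with
  | nil => intro t f; simp [spl]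
  | cons x w ih =>
    intro t f
    unfold spl
    rw [ih t (fun v c u => f (x :: v) c u)]
    ring

theorem spl_spl (w : List C) : ∀ h : List C → C → List C → C → List C → ℝ,
    spl (fun v c u => spl (fun v1 c1 u1 => h v c v1 c1 u1) u) w =
      spl (fun v' c' u' => spl (fun v c u => h v c u c' u') v') w := by
  induction w with
  | nil => intro h; rfl
  | cons x w ih =>
    intro h
    have e1 : spl (fun v c u => spl (fun v1 c1 u1 => h v c v1 c1 u1) u) (x :: w) =
      spl (fun v1 c1 u1 => h [] x v1 c1 u1) w +
        spl (fun v c u => spl (fun v1 c1 u1 => h (x :: v) c v1 c1 u1) u) w := rfl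
    have e2 : spl (fun v' c' u' => spl (fun v c u => h v c u c' u') v') (x :: w) =
      0 + spl (fun v' c' u' => h [] x v' c' u' + spl (fun v c u => h (x :: v) c u c' u') v') w :=
      rfl
    rw [e1, e2, zero_add, spl_add, ih (fun v c v1 c1 u1 => h (x :: v) c v1 c1 u1)]

theorem spl_snoc (w : List C) : ∀ (x : C) (f : List C → C → List C → ℝ),
    spl f (w ++ [x]) = spl (fun v c u => f v c (u ++ [x])) w + f w x [] := by
  induction w with
  | nil => intro x f; simp [spl]
  | cons y w ih =>
    intro x f
    rw [List.cons_append]
    unfold spl
    rw [ih x (fun v c u => f (y :: v) c u)]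
    ring

theorem Gn_succ (p z : ℝ) (n : ℕ) : ∀ (a b : Option C) (w : List C), w.length ≤ n →
    Gn p z (n + 1) a w b = Gn p z n a w b := by
  induction n with
  | zero =>
    intro a b w hw
    have : w = [] := List.eq_nil_of_length_eq_zero (Nat.le_zero.1 hw)
    subst this
    simp [Gn, spl]
  | succ n ih =>
    intro a b w hw
    rw [Gn, Gn]
    congr 2
    refine spl_congr w _ _ ?_
    intro v c u he
    rw [ih (some c) b u]
    have := congrArg List.length he
    simp only [List.length_append, List.length_cons] at this
    omega

theorem Gn_eq (p z : ℝ) (a b : Option C) (w : List C) (n : ℕ) (hn : w.length ≤ n) :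
    Gn p z n a w b = G p z a w b := by
  obtain ⟨k, rfl⟩ := Nat.exists_eq_add_of_le hn
  induction k with
  | zero => rfl
  | succ k ih =>
    rw [← add_assoc, Gn_succ p z _ a b w (by omega)]
    exact ih (by omega)

theorem G_left (p z : ℝ) (a b : Option C) (w : List C) : G p z a w b =
    F1 p a w b + z * spl (fun v c u => F1 p a v (some c) * G p z (some c) u b) w := by
  rw [← Gn_eq p z a b w (w.length + 1) (by omega), Gn]
  congr 2
  refine spl_congr w _ _ ?_
  intro v c u he
  rw [Gn_eq p z (some c) b u w.length]
  have := congrArg List.length he
  simp only [List.length_append, List.length_cons] at this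
  omega

theorem G_right_aux (p z : ℝ) (n : ℕ) : ∀ (a b : Option C) (w : List C), w.length ≤ n →
    G p z a w b =
    F1 p a w b + z * spl (fun v c u => G p z a v (some c) * F1 p (some c) u b) w := by
  induction n with
  | zero =>
    intro a b w hw
    have : w = [] := List.eq_nil_of_length_eq_zero (Nat.le_zero.1 hw)
    subst this
    rw [G_left]
    rfl
  | succ n ih =>
    intro a b w hw
    have e1 : spl (fun v c u => F1 p a v (some c) * G p z (some c) u b) w =
        spl (fun v c u => F1 p a v (some c) * F1 p (some c) u b) w +
        spl (fun v c u => spl (fun v1 c1 u1 => z * (F1 p a v (some c) *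
          G p z (some c) v1 (some c1) * F1 p (some c1) u1 b)) u) w := by
      rw [← spl_add]
      refine spl_congr w _ _ ?_
      intro v c u he
      have hl := congrArg List.length he
      simp only [List.length_append, List.length_cons] at hl
      rw [ih (some c) b u (by omega), mul_add, spl_mul, ← spl_mul u z]
      congr 1
      rw [spl_mul, ← mul_assoc, mul_comm (F1 p a v (some c)) z, mul_assoc, ← spl_mul]
      congr 1
      refine spl_congr u _ _ ?_
      intro v1 c1 u1 _
      ring
    have e2 : spl (fun v c u => G p z a v (some c) * F1 p (some c) u b) w =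
        spl (fun v c u => F1 p a v (some c) * F1 p (some c) u b) w +
        spl (fun v' c' u' => spl (fun v c u => z * (F1 p a v (some c) *
          G p z (some c) u (some c') * F1 p (some c') u' b)) v') w := by
      rw [← spl_add]
      refine spl_congr w _ _ ?_
      intro v' c' u' _
      rw [G_left p z a (some c') v', add_mul, mul_comm (z * spl _ v') _, ← mul_assoc,
        ← spl_mul]
      congr 1
      refine spl_congr v' _ _ ?_
      intro v1 c1 u1 _
      ring
    rw [G_left p z a b w, e1, e2, spl_spl w (fun v c v1 c1 u1 => z * (F1 p a v (some c) *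
          G p z (some c) v1 (some c1) * F1 p (some c1) u1 b))]

theorem G_right (p z : ℝ) (a b : Option C) (w : List C) : G p z a w b =
    F1 p a w b + z * spl (fun v c u => G p z a v (some c) * F1 p (some c) u b) w :=
  G_right_aux p z w.length a b w le_rfl

theorem T_rot (p z : ℝ) (x : C) (w : List C) : T p z (x :: w) = T p z (w ++ [x]) := by
  have e1 : T p z (x :: w) =
      spl (fun g k u => z ^ 2 * G p z (some x) g (some k) * F1 p (some k) (u ++ []) (some x)) w +
      spl (fun v j rest => spl (fun g k u =>
        z ^ 2 * G p z (some j) g (some k) * F1 p (some k) (u ++ (x :: v)) (some j)) rest) w := rfl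
  have e2 : T p z (w ++ [x]) =
      spl (fun v j rest => spl (fun g k u =>
        z ^ 2 * G p z (some j) g (some k) * F1 p (some k) (u ++ (x :: v)) (some j)) rest) w +
      spl (fun v j g => z ^ 2 * G p z (some j) g (some x) * F1 p (some x) v (some j)) w := by
    unfold T
    rw [spl_snoc, ← spl_add]
    have e0 : spl (fun g k u => z ^ 2 * G p z (some x) g (some k) *
      F1 p (some k) (u ++ w) (some x)) [] = 0 := rfl
    rw [e0, add_zero]
    refine spl_congr w _ _ ?_
    intro v j rest _
    rw [spl_snoc]
    congr 1
    refine spl_congr rest _ _ ?_
    intro g k u _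
    rw [List.append_assoc]
    rfl
  have h1 := G_left p z (some x) (some x) w
  have h2 := G_right p z (some x) (some x) w
  have h3 : z * spl (fun v c u => G p z (some x) v (some c) * F1 p (some c) u (some x)) w =
      z * spl (fun v c u => F1 p (some x) v (some c) * G p z (some c) u (some x)) w := by
    linarith
  have e3 : spl (fun g k u => z ^ 2 * G p z (some x) g (some k) *
      F1 p (some k) (u ++ []) (some x)) w =
      z * (z * spl (fun v c u => G p z (some x) v (some c) * F1 p (some c) u (some x)) w) := by
    rw [← mul_assoc, ← spl_mul]
    refine spl_congr w _ _ ?_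
    intro v c u _
    rw [List.append_nil]
    ring
  have e4 : spl (fun v j g => z ^ 2 * G p z (some j) g (some x) *
      F1 p (some x) v (some j)) w =
      z * (z * spl (fun v c u => F1 p (some x) v (some c) * G p z (some c) u (some x)) w) := by
    rw [← mul_assoc, ← spl_mul]
    refine spl_congr w _ _ ?_
    intro v c u _
    ring
  rw [e1, e2, e3, e4, h3]
  ring

end

theorem t_ROT : S_ROT := by
  intro C _ p z _
  exact ⟨fun x w => T_rot p z x w, fun a b w => G_left p z a b w,
    fun a b w => G_right p z a b w⟩

end Pool.Agent.W400.CY
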